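import Pool.Agent.Lib.MP_688fd0_co.OSF.Iface

/-!
Board `os_modules`, module W3. Windows in coordinates (adapted from `OSF/H3/Coord.lean` to a central label `a` in an
arbitrary group): the point `(i, j)` stands for `A ^ i * S ^ j`. All conditions of `Win.OK` are reduced to decidable
statements about lists of points of `ℤ ^ 2`, provided that the map is injective on a box.
-/

set_option autoImplicit false

namespace Pool.Agent.Lib.MP_688fd0_co.OSF.H9

universe u v w

/-- Letters. -/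
inductive Sy
  | a | s | a' | s'
  deriving DecidableEq

/-- Points. -/
abbrev Pt := ℤ × ℤ

/-- The vector of a letter. -/
def vec : Sy → Pt
  | .a => (1, 0)
  | .s => (0, 1)
  | .a' => (-1, 0)
  | .s' => (0, -1)

/-- The points of a path. -/
def vverts : Pt → List Sy → List Pt
  | x, [] => [x]
  | x, c :: l => x :: vverts (x + vec c) l

/-- The end of a path. -/
def vfin : Pt → List Sy → Pt
  | x, [] => x
  | x, c :: l => vfin (x + vec c) l

/-- The four points of a band. -/
def cbv (b : Pt × Sy) : List Pt := [b.1, b.1 + vec .a, b.1 + vec b.2, b.1 + vec .a + vec b.2]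

/-- A window in coordinates. The footprint is the set of all points in the rows `rows` whose first coordinate is in
`[lo, hi]`. -/
structure CW where
  pre : List (Pt × Sy)
  opt : List (Pt × Sy)
  str : List (Pt × List Sy × List Sy)
  lo : ℤ
  hi : ℤ
  rows : Finset ℤ

namespace CW

variable (C : CW)

/-- The footprint. -/
def In (x : Pt) : Prop := C.lo ≤ x.1 ∧ x.1 ≤ C.hi ∧ x.2 ∈ C.rows

instance : DecidablePred C.In := fun x => by unfold In; infer_instance

/-- Removed edges. -/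
def CRem (x : Pt) : Prop := ∃ b ∈ C.pre, x = b.1 ∨ x = b.1 + vec b.2

instance : DecidablePred C.CRem := fun x => by unfold CRem; infer_instance

/-- Rungs. -/
def CRung (x y : Pt) : Prop :=
  ∃ b ∈ C.pre, (x = b.1 ∧ y = b.1 + vec b.2) ∨ (y = b.1 ∧ x = b.1 + vec b.2) ∨
    (x = b.1 + vec .a ∧ y = b.1 + vec .a + vec b.2) ∨ (y = b.1 + vec .a ∧ x = b.1 + vec .a + vec b.2)

instance : DecidableRel C.CRung := fun x y => by unfold CRung; infer_instance

/-- Edges. -/
def CEdg (x y : Pt) : Prop :=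
  (y = x + vec .a ∧ ¬ C.CRem x) ∨ (x = y + vec .a ∧ ¬ C.CRem y) ∨ C.CRung x y

instance : DecidableRel C.CEdg := fun x y => by unfold CEdg; infer_instance

/-- Connections. -/
def Con (x y : Pt) : Prop :=
  (y = x + vec .a ∧ C.In x ∧ C.In y ∧ ¬ C.CRem x) ∨ (x = y + vec .a ∧ C.In x ∧ C.In y ∧ ¬ C.CRem y) ∨
    C.CRung x y ∨ ∃ b ∈ C.opt, (x = b.1 ∧ y = b.1 + vec b.2) ∨ (y = b.1 ∧ x = b.1 + vec b.2)

instance : DecidableRel C.Con := fun x y => by unfold Con; infer_instance

/-- Correct windows. -/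
structure Good : Prop where
  nd : ((C.pre ++ C.opt).flatMap cbv).Nodup
  ind : ∀ b ∈ C.pre ++ C.opt, ∀ x ∈ cbv b, C.In x
  ins : ∀ s ∈ C.str, ∀ x ∈ vverts s.1 s.2.1, C.In x
  ne : ∀ s ∈ C.str, s.2.1 ≠ []
  fin : ∀ s ∈ C.str, vfin s.1 s.2.1 = vfin s.1 s.2.2
  snd : (C.str.flatMap fun s => vverts s.1 s.2.1).Nodup
  perm : (C.str.flatMap fun s => vverts s.1 s.2.2).Perm (C.str.flatMap fun s => vverts s.1 s.2.1)
  base : ∀ s ∈ C.str, List.IsChain C.CEdg (vverts s.1 s.2.1)
  away : ∀ s ∈ C.str, ∀ x ∈ vverts s.1 s.2.1, ∀ b ∈ C.opt, x ∉ cbv b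
  conn : ∀ b ∈ C.pre, Relation.ReflTransGen C.Con b.1 (b.1 + vec .a) ∧
    Relation.ReflTransGen C.Con (b.1 + vec b.2) (b.1 + vec .a + vec b.2)

end CW

theorem path_of_chain {α : Type*} {R : α → α → Prop} : ∀ (l : List α) (x : α), List.IsChain R (x :: l) →
    ∀ y, (x :: l).getLast (List.cons_ne_nil x l) = y → Relation.ReflTransGen R x y := by
  intro l
  induction l with
  | nil => intro x _ y h; rw [List.getLast_singleton] at h; rw [h]
  | cons z l ih =>
    intro x hc y h
    rw [List.isChain_cons_cons] at hc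
    rw [List.getLast_cons (List.cons_ne_nil z l)] at h
    exact Relation.ReflTransGen.head hc.1 (ih z hc.2 y h)

section

variable {Q : Type u} [Group Q] {B : Lb.{u, v} Q} (a s : B.L)

/-- The point of `Q`. -/
def Phi (x : Pt) : Q := B.q a ^ x.1 * B.q s ^ x.2

theorem Phi_add (hc : Cen a) (x y : Pt) : Phi a s (x + y) = Phi a s x * Phi a s y := by
  have h : Commute (B.q s ^ x.2) (B.q a ^ y.1) := by
    have h1 : Commute (B.q s) (B.q a) := hc (B.q s)
    exact h1.zpow_zpow _ _
  simp only [Phi, Prod.fst_add, Prod.snd_add, zpow_add]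
  rw [mul_assoc (B.q a ^ x.1) (B.q a ^ y.1), mul_assoc (B.q a ^ x.1) (B.q s ^ x.2),
    ← mul_assoc (B.q s ^ x.2), h.eq, mul_assoc (B.q a ^ y.1)]

variable (hz : Cen a)

/-- The label of a letter. -/
def lbl : Sy → B.L
  | .a => a
  | .s => s
  | .a' => B.inv a
  | .s' => B.inv s

theorem q_lbl (c : Sy) : B.q (lbl a s c) = Phi a s (vec c) := by
  cases c <;> simp [lbl, vec, Phi, B.q_inv]

theorem Phi_vec_a : Phi a s (vec .a) = B.q a := (q_lbl a s .a).symm

include hz in
theorem verts_map (l : List Sy) : ∀ x : Pt, B.verts (Phi a s x) (l.map (lbl a s))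
    = (vverts x l).map (Phi a s) := by
  induction l with
  | nil => intro x; rfl
  | cons c l ih =>
    intro x
    rw [List.map_cons, Lb.verts, vverts, List.map_cons, q_lbl, ← Phi_add a s hz, ih]

include hz in
theorem fin_map (l : List Sy) : ∀ x : Pt, B.fin (Phi a s x) (l.map (lbl a s))
    = Phi a s (vfin x l) := by
  induction l with
  | nil => intro x; rfl
  | cons c l ih =>
    intro x
    rw [List.map_cons, Lb.fin, vfin, q_lbl, ← Phi_add a s hz, ih]

/-- The band. -/
def bnd (b : Pt × Sy) : Q × B.L := (Phi a s b.1, lbl a s b.2)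

include hz in
theorem bv_map (b : Pt × Sy) : bv a (bnd a s b) = (cbv b).map (Phi a s) := by
  simp only [bv, bnd, cbv, List.map_cons, List.map_nil, Phi_add a s hz, Phi_vec_a, q_lbl]

variable (C : CW)

open Classical in
/-- The window. -/
noncomputable def CW.win : Win a where
  pre := C.pre.map (bnd a s)
  opt := C.opt.map (bnd a s)
  str := C.str.map fun σ => ⟨Phi a s σ.1, σ.2.1.map (lbl a s), σ.2.2.map (lbl a s)⟩
  F := (Finset.Icc C.lo C.hi ×ˢ C.rows).image (Phi a s)

variable {C}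

theorem CW.mem_F {x : Pt} (h : C.In x) : Phi a s x ∈ (C.win a s).F := by
  classical
  refine Finset.mem_image_of_mem _ ?_
  rw [Finset.mem_product, Finset.mem_Icc]
  exact ⟨⟨h.1, h.2.1⟩, h.2.2⟩

theorem CW.mem_F' {x : Q} (h : x ∈ (C.win a s).F) : ∃ y, C.In y ∧ x = Phi a s y := by
  classical
  obtain ⟨y, hy, rfl⟩ := Finset.mem_image.1 h
  rw [Finset.mem_product, Finset.mem_Icc] at hy
  exact ⟨y, ⟨hy.1.1, hy.1.2, hy.2⟩, rfl⟩

theorem CW.card_F : (C.win a s).F.card ≤ (C.hi + 1 - C.lo).toNat * C.rows.card := by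
  classical
  refine Finset.card_image_le.trans ?_
  rw [Finset.card_product, Int.card_Icc]

variable (hinj : ∀ x y : Pt, C.In x → C.In y → Phi a s x = Phi a s y → x = y)

theorem nodup_map {l : List Pt} (hinj : ∀ x y : Pt, C.In x → C.In y → Phi a s x = Phi a s y → x = y)
    (hl : l.Nodup) (h : ∀ x ∈ l, C.In x) : (l.map (Phi a s)).Nodup :=
  List.Nodup.map_on (fun x hx y hy e => hinj x y (h x hx) (h y hy) e) hl

include hz hinj in
theorem CW.rem_iff (hb : ∀ b ∈ C.pre, ∀ x ∈ cbv b, C.In x) {x : Pt} (hx : C.In x)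
    (h : Rem (C.win a s).pre (Phi a s x)) : C.CRem x := by
  obtain ⟨b, hb1, hb2⟩ := h
  obtain ⟨c, hc, rfl⟩ := List.mem_map.1 hb1
  refine ⟨c, hc, ?_⟩
  rcases hb2 with h | h
  · left
    exact hinj _ _ hx (hb c hc _ (by simp [cbv])) h
  · right
    refine hinj _ _ hx (hb c hc _ (by simp [cbv])) ?_
    rw [Phi_add a s hz, ← q_lbl]
    exact h

include hz in
theorem CW.rung {x y : Pt} (h : C.CRung x y) :
    Rung a (C.win a s).pre (Phi a s x) (Phi a s y) := by
  obtain ⟨b, hb, h⟩ := h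
  refine ⟨bnd a s b, List.mem_map_of_mem hb, ?_⟩
  have e1 : Phi a s b.1 * B.q (lbl a s b.2) = Phi a s (b.1 + vec b.2) := by
    rw [Phi_add a s hz, q_lbl]
  have e2 : Phi a s b.1 * B.q a = Phi a s (b.1 + vec .a) := by
    rw [Phi_add a s hz, Phi_vec_a]
  have e3 : Phi a s b.1 * B.q a * B.q (lbl a s b.2) = Phi a s (b.1 + vec .a + vec b.2) := by
    rw [e2, q_lbl, ← Phi_add a s hz]
  simp only [bnd]
  rw [e3, e2, e1]
  rcases h with ⟨rfl, rfl⟩ | ⟨rfl, rfl⟩ | ⟨rfl, rfl⟩ | ⟨rfl, rfl⟩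
  · exact Or.inl ⟨rfl, rfl⟩
  · exact Or.inr (Or.inl ⟨rfl, rfl⟩)
  · exact Or.inr (Or.inr (Or.inl ⟨rfl, rfl⟩))
  · exact Or.inr (Or.inr (Or.inr ⟨rfl, rfl⟩))

include hz hinj in
theorem CW.edg (hb : ∀ b ∈ C.pre, ∀ x ∈ cbv b, C.In x) {x y : Pt} (hx : C.In x) (hy : C.In y)
    (h : C.CEdg x y) : Edg a (C.win a s).pre (Phi a s x) (Phi a s y) := by
  rcases h with ⟨e, h⟩ | ⟨e, h⟩ | h
  · refine Or.inl ⟨?_, fun hr => h (CW.rem_iff a s hz hinj hb hx hr)⟩
    rw [e, Phi_add a s hz, Phi_vec_a]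
  · refine Or.inr (Or.inl ⟨?_, fun hr => h (CW.rem_iff a s hz hinj hb hy hr)⟩)
    rw [e, Phi_add a s hz, Phi_vec_a]
  · exact Or.inr (Or.inr (CW.rung a s hz h))

theorem isChain_map_of {α β : Type*} (f : α → β) {R : α → α → Prop} {R' : β → β → Prop} {P : α → Prop}
    (h : ∀ x y, P x → P y → R x y → R' (f x) (f y)) : ∀ l : List α, (∀ x ∈ l, P x) → List.IsChain R l →
    List.IsChain R' (l.map f) := by
  intro l
  induction l with
  | nil => intro _ _; exact List.IsChain.nil
  | cons x l ih =>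
    cases l with
    | nil => intro _ _; exact List.IsChain.singleton _
    | cons y l =>
      intro hP hc
      rw [List.isChain_cons_cons] at hc
      rw [List.map_cons, List.map_cons, List.isChain_cons_cons]
      exact ⟨h x y (hP x (by simp)) (hP y (by simp)) hc.1, ih (fun z hz => hP z (List.mem_cons_of_mem x hz)) hc.2⟩

include hz hinj in
theorem CW.ok (hC : C.Good) : (C.win a s).OK := by
  have hpre : ∀ b ∈ C.pre, ∀ x ∈ cbv b, C.In x := fun b hb =>
    hC.ind b (List.mem_append_left _ hb)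
  have hbands : ((C.win a s).pre ++ (C.win a s).opt).flatMap (bv a)
      = ((C.pre ++ C.opt).flatMap cbv).map (Phi a s) := by
    change (C.pre.map (bnd a s) ++ C.opt.map (bnd a s)).flatMap (bv a) = _
    rw [← List.map_append, List.flatMap_map, List.map_flatMap]
    refine List.flatMap_congr fun b _ => ?_
    rw [bv_map a s hz]
  have hvb : (C.win a s).str.flatMap Strand.vb
      = (C.str.flatMap fun σ => vverts σ.1 σ.2.1).map (Phi a s) := by
    change (C.str.map _).flatMap Strand.vb = _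
    rw [List.flatMap_map, List.map_flatMap]
    refine List.flatMap_congr fun b _ => ?_
    exact verts_map a s hz _ _
  have hva : (C.win a s).str.flatMap Strand.va
      = (C.str.flatMap fun σ => vverts σ.1 σ.2.2).map (Phi a s) := by
    change (C.str.map _).flatMap Strand.va = _
    rw [List.flatMap_map, List.map_flatMap]
    refine List.flatMap_congr fun b _ => ?_
    exact verts_map a s hz _ _
  refine ⟨?_, ?_, ?_, ?_, ?_, ?_, ?_⟩
  · rw [hbands]
    refine nodup_map a s hinj hC.nd fun x hx => ?_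
    obtain ⟨b, hb, hx⟩ := List.mem_flatMap.1 hx
    exact hC.ind b hb x hx
  · intro b hb x hx
    change b ∈ C.pre.map (bnd a s) ++ C.opt.map (bnd a s) at hb
    rw [← List.map_append] at hb
    obtain ⟨c, hc, rfl⟩ := List.mem_map.1 hb
    rw [bv_map a s hz] at hx
    obtain ⟨y, hy, rfl⟩ := List.mem_map.1 hx
    exact CW.mem_F a s (hC.ind c hc y hy)
  · intro σ hσ x hx
    obtain ⟨τ, hτ, rfl⟩ := List.mem_map.1 hσ
    change x ∈ B.verts (Phi a s τ.1) (τ.2.1.map (lbl a s)) at hx
    rw [verts_map a s hz] at hx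
    obtain ⟨y, hy, rfl⟩ := List.mem_map.1 hx
    exact CW.mem_F a s (hC.ins τ hτ y hy)
  · refine ⟨?_, ?_, ?_, ?_⟩
    · intro σ hσ
      obtain ⟨τ, hτ, rfl⟩ := List.mem_map.1 hσ
      intro h
      exact hC.ne τ hτ (List.map_eq_nil_iff.1 h)
    · intro σ hσ
      obtain ⟨τ, hτ, rfl⟩ := List.mem_map.1 hσ
      change B.fin (Phi a s τ.1) (τ.2.1.map (lbl a s)) = B.fin (Phi a s τ.1) (τ.2.2.map (lbl a s))
      rw [fin_map a s hz, fin_map a s hz, hC.fin τ hτ]
    · rw [hvb]
      refine nodup_map a s hinj hC.snd fun x hx => ?_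
      obtain ⟨b, hb, hx⟩ := List.mem_flatMap.1 hx
      exact hC.ins b hb x hx
    · rw [hva, hvb]
      exact hC.perm.map _
  · intro σ hσ
    obtain ⟨τ, hτ, rfl⟩ := List.mem_map.1 hσ
    change List.IsChain _ (B.verts (Phi a s τ.1) (τ.2.1.map (lbl a s)))
    rw [verts_map a s hz]
    exact isChain_map_of (Phi a s) (P := C.In)
      (fun x y hx hy h => CW.edg a s hz hinj hpre hx hy h) _ (hC.ins τ hτ) (hC.base τ hτ)
  · intro σ hσ x hx b hb hxb
    obtain ⟨τ, hτ, rfl⟩ := List.mem_map.1 hσ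
    change x ∈ B.verts (Phi a s τ.1) (τ.2.1.map (lbl a s)) at hx
    rw [verts_map a s hz] at hx
    obtain ⟨y, hy, rfl⟩ := List.mem_map.1 hx
    obtain ⟨c, hc, rfl⟩ := List.mem_map.1 hb
    rw [bv_map a s hz] at hxb
    obtain ⟨z, hz, e⟩ := List.mem_map.1 hxb
    have hyz := hinj z y (hC.ind c (List.mem_append_right _ hc) z hz) (hC.ins τ hτ y hy) e
    exact hC.away τ hτ y hy c hc (hyz ▸ hz)
  · intro r hr h1 h2 h3
    have hcon : ∀ x y, C.Con x y → r (Phi a s x) (Phi a s y) := by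
      intro x y h
      rcases h with ⟨e, hx, hy, h⟩ | ⟨e, hx, hy, h⟩ | ⟨b, hb, h⟩ | ⟨b, hb, h⟩
      · have h4 := h1 (Phi a s x) (CW.mem_F a s hx) (by
          rw [← Phi_vec_a a s, ← Phi_add a s hz, ← e]; exact CW.mem_F a s hy)
          (fun hh => h (CW.rem_iff a s hz hinj hpre hx hh))
        rwa [← Phi_vec_a a s, ← Phi_add a s hz, ← e] at h4
      · have h4 := h1 (Phi a s y) (CW.mem_F a s hy) (by
          rw [← Phi_vec_a a s, ← Phi_add a s hz, ← e]; exact CW.mem_F a s hx)
          (fun hh => h (CW.rem_iff a s hz hinj hpre hy hh))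
        rw [← Phi_vec_a a s, ← Phi_add a s hz, ← e] at h4
        exact hr.symm h4
      · have h4 := h2 (bnd a s b) (List.mem_map_of_mem hb)
        simp only [bnd, q_lbl] at h4
        rw [← Phi_vec_a a s, ← Phi_add a s hz, ← Phi_add a s hz, ← Phi_add a s hz] at h4
        rcases h with ⟨rfl, rfl⟩ | ⟨rfl, rfl⟩ | ⟨rfl, rfl⟩ | ⟨rfl, rfl⟩
        · exact h4.1
        · exact hr.symm h4.1
        · exact h4.2
        · exact hr.symm h4.2
      · have h4 := h3 (bnd a s b) (List.mem_map_of_mem hb)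
        simp only [bnd, q_lbl] at h4
        rw [← Phi_add a s hz] at h4
        rcases h with ⟨rfl, rfl⟩ | ⟨rfl, rfl⟩
        · exact h4
        · exact hr.symm h4
    have hpath : ∀ x y, Relation.ReflTransGen C.Con x y → r (Phi a s x) (Phi a s y) := by
      intro x y h
      induction h with
      | refl => exact hr.refl _
      | tail _ h ih => exact hr.trans ih (hcon _ _ h)
    intro b hb
    obtain ⟨c, hc, rfl⟩ := List.mem_map.1 hb
    have h4 := hC.conn c hc
    simp only [bnd, q_lbl]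
    rw [← Phi_vec_a a s, ← Phi_add a s hz, ← Phi_add a s hz, ← Phi_add a s hz]
    exact ⟨hpath _ _ h4.1, hpath _ _ h4.2⟩

include hz in
/-- Injectivity on the box: `D` contains the differences of the rows (up to sign). -/
theorem CW.inj_of (D : Finset ℤ) (N : ℕ)
    (hD : ∀ ρ ∈ C.rows, ∀ ρ' ∈ C.rows, ρ = ρ' ∨ ρ - ρ' ∈ D ∨ ρ' - ρ ∈ D)
    (hN : C.hi - C.lo ≤ N) (hord : N < orderOf (B.q a))
    (h : ∀ ρ ∈ D, ∀ c : ℤ, |c| ≤ N → Phi a s (c, ρ) ≠ 1) :
    ∀ x y : Pt, C.In x → C.In y → Phi a s x = Phi a s y → x = y := by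
  have key : ∀ x y : Pt, Phi a s x = Phi a s y → Phi a s (x.1 - y.1, x.2 - y.2) = 1 := by
    intro x y e
    have h1 : x = (x.1 - y.1, x.2 - y.2) + y := by
      ext <;> simp
    rw [h1, Phi_add a s hz] at e
    exact mul_eq_right.1 e
  rintro ⟨i, ρ⟩ ⟨i', ρ'⟩ ⟨h1, h2, h3⟩ ⟨h1', h2', h3'⟩ e
  simp only at h1 h2 h3 h1' h2' h3'
  rcases hD ρ h3 ρ' h3' with h4 | h4 | h4
  · subst h4
    have h5 := key _ _ e
    simp only [sub_self] at h5
    have h6 : B.q a ^ (i - i') = 1 := by
      simpa [Phi] using h5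
    have h7 := orderOf_dvd_iff_zpow_eq_one.2 h6
    have h8 : i - i' = 0 := Int.eq_zero_of_abs_lt_dvd h7 (by
      rw [abs_lt]; constructor <;> omega)
    have h9 : i = i' := by omega
    rw [h9]
  · exact (h _ h4 (i - i') (by rw [abs_le]; constructor <;> omega) (key _ _ e)).elim
  · exact (h _ h4 (i' - i) (by rw [abs_le]; constructor <;> omega) (key _ _ e.symm)).elim

end

/-- Part of a row, from left to right. -/
def up (i : ℤ) (n : ℕ) (r : ℤ) : List Pt := (List.range n).map fun k => (i + k, r)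

/-- Part of a row, from right to left. -/
def down (i : ℤ) (n : ℕ) (r : ℤ) : List Pt := (List.range n).map fun k => (i - k, r)

/-- The window W3: the block of nine points by rows or by columns. -/
def C3 : CW where
  pre := [((0, 0), .s), ((3, 1), .s)]
  opt := [((-3, 1), .s), ((7, 0), .s)]
  str := [((1, 2), [.a, .a, .s', .a', .a', .s', .a, .a], [.s', .s', .a, .s, .s, .a, .s', .s'])]
  lo := -3
  hi := 8
  rows := {0, 1, 2}

theorem good3 : C3.Good where
  nd := by decide +kernel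
  ind := by decide +kernel
  ins := by decide +kernel
  ne := by decide +kernel
  fin := by decide +kernel
  snd := by decide +kernel
  perm := by decide +kernel
  base := by decide +kernel
  away := by decide +kernel
  conn := by
    intro b hb
    have hb' : b = ((0, 0), .s) ∨ b = ((3, 1), .s) := by
      simpa [C3] using hb
    rcases hb' with rfl | rfl
    · constructor
      · exact path_of_chain (down 0 4 1 ++ up (-3) 7 2 ++ down 3 3 1 ++ [(1, 0)]) _
          (by decide +kernel) _ (by decide +kernel)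
      · exact path_of_chain (down (-1) 3 1 ++ up (-3) 7 2 ++ down 3 3 1) _
          (by decide +kernel) _ (by decide +kernel)
    · constructor
      · exact path_of_chain (down 2 2 1 ++ up 1 7 0 ++ down 7 4 1) _
          (by decide +kernel) _ (by decide +kernel)
      · exact path_of_chain (down 3 3 1 ++ up 1 7 0 ++ down 7 4 1 ++ [(4, 2)]) _
          (by decide +kernel) _ (by decide +kernel)

theorem w3 : W3S.{u, v} := by
  intro Q _ B p V a s hy h1 h2 hne hk
  have _ : Fact p.Prime := ⟨hy.prime⟩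
  have hz : Cen a := hy.cen
  have hst : ∀ c : ℤ, |c| ≤ ((11 : ℕ) : ℤ) → |(-c)| ≤ ((20 : ℕ) : ℤ) := by
    intro c hc
    rw [abs_neg]
    push_cast at hc ⊢
    omega
  have hinj := CW.inj_of (C := C3) a s hz {1, 2} 11
    (by decide +kernel) (by decide +kernel) (by have := hy.big; omega) (by
      intro ρ hρ c hc e
      simp only [Finset.mem_insert, Finset.mem_singleton] at hρ
      have hc' := hst c hc
      rcases hρ with rfl | rfl
      · apply h1
        refine ⟨-c, hc', ?_⟩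
        simp only [Phi, zpow_one] at e
        rw [zpow_neg]
        exact (inv_eq_of_mul_eq_one_right e).symm
      · apply h2
        refine ⟨-c, hc', ?_⟩
        have e' : B.q a ^ c * B.q s ^ 2 = 1 := by
          simp only [Phi] at e
          exact_mod_cast e
        rw [zpow_neg]
        exact (inv_eq_of_mul_eq_one_right e').symm)
  refine ⟨C3.win a s, CW.ok a s hz hinj good3, (CW.card_F a s).trans (by decide +kernel),
    Nat.le_succ _, ?_⟩
  intro l hl
  have hl' : l.map Prod.fst = [⟨Phi a s (1, 2), [a, a, B.inv s, B.inv a, B.inv a, B.inv s, a, a],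
      [B.inv s, B.inv s, a, s, s, a, B.inv s, B.inv s]⟩] := hl
  obtain ⟨⟨σ₁, b₁⟩, l₁, rfl, e₁, hl₁⟩ := List.map_eq_cons_iff.1 hl'
  have e₃ := List.map_eq_nil_iff.1 hl₁
  subst e₃
  simp only at e₁
  subst e₁
  have hβ : V.chi (B.q s) * V.chi (B.q s)⁻¹ = 1 := by rw [← map_mul, mul_inv_cancel, map_one]
  have hα : V.chi (B.q a) * V.chi (B.q a)⁻¹ = 1 := by rw [← map_mul, mul_inv_cancel, map_one]
  have hα0 : V.chi (B.q a) ≠ 0 := left_ne_zero_of_mul_eq_one hα
  have v1 : V.vol (Phi a s (1, 2)) [B.inv s, B.inv s, a, s, s, a, B.inv s, B.inv s] -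
      V.vol (Phi a s (1, 2)) [a, a, B.inv s, B.inv a, B.inv a, B.inv s, a, a]
      = V.chi (B.q a) * (V.chi (B.q s) - V.chi (B.q a)) * V.kap a s := by
    have hP : V.chi (Phi a s (1, 2)) = V.chi (B.q a) * V.chi (B.q s) ^ 2 := by
      have : Phi a s (1, 2) = B.q a * B.q s ^ 2 := by
        simp only [Phi, zpow_one]
        norm_cast
      rw [this, map_mul, map_pow]
    have hβ0 : V.chi (B.q s) ≠ 0 := left_ne_zero_of_mul_eq_one hβ
    have hα' : V.chi (B.q a)⁻¹ = (V.chi (B.q a))⁻¹ := eq_inv_of_mul_eq_one_right hα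
    have hβ' : V.chi (B.q s)⁻¹ = (V.chi (B.q s))⁻¹ := eq_inv_of_mul_eq_one_right hβ
    simp only [Vd.vol, Vd.kap, V.n_inv, B.q_inv, map_mul, hP, hα', hβ']
    field_simp
    ring
  have hd : V.dlt [((⟨Phi a s (1, 2), [a, a, B.inv s, B.inv a, B.inv a, B.inv s, a, a],
      [B.inv s, B.inv s, a, s, s, a, B.inv s, B.inv s]⟩ : Strand B), b₁)]
      = (if b₁ then 1 else -1) * (V.chi (B.q a) * (V.chi (B.q s) - V.chi (B.q a)) * V.kap a s) := by
    simp only [Vd.dlt, List.map_cons, List.map_nil, List.sum_cons, List.sum_nil, v1, add_zero]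
  rw [hd]
  refine mul_ne_zero ?_ (mul_ne_zero (mul_ne_zero hα0 (sub_ne_zero.2 hne)) hk)
  cases b₁
  · simp
  · simp

end Pool.Agent.Lib.MP_688fd0_co.OSF.H9
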